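import Mathlib

/-!
# Populations with a prescribed mean error
-/

namespace Q296.TwoPt

/-- `e` is a population of `N ≥ 1` items with error sizes in `[0,1]` and mean error `m`. -/
structure IsPopulation (m : ℝ) {N : ℕ} (e : Fin N → ℝ) : Prop where
  pos : 1 ≤ N
  mem : ∀ i, 0 ≤ e i ∧ e i ≤ 1
  mean : (∑ i, e i) / N = m

/-- `F_e(c)`: the probability that the sum of the error sizes of `n` items drawn with replacement
is at most `c`, that is the number of `n`-tuples of items with sum at most `c` divided by `N^n`. -/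
noncomputable def F (n : ℕ) (c : ℝ) {N : ℕ} (e : Fin N → ℝ) : ℝ :=
  (Nat.card {ω : Fin n → Fin N // ∑ k, e (ω k) ≤ c} : ℝ) / (N : ℝ) ^ n

end Q296.TwoPt
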