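import Pool.Agent.Q296.TwoPt.Defs

/-!
# Populations with a prescribed mean error: the counterexample
-/

namespace Q296.TwoPt

open Finset

/-! ### The counterexample -/

open scoped Classical in
lemma card_eq {N : ℕ} (e : Fin N → ℝ) (c : ℝ) :
    Nat.card {ω : Fin 2 → Fin N // ∑ k, e (ω k) ≤ c} =
      ((univ : Finset (Fin N × Fin N)).filter (fun x => e x.1 + e x.2 ≤ c)).card := by
  rw [Nat.card_eq_fintype_card, Fintype.card_subtype]
  refine Finset.card_bij (fun ω _ => (ω 0, ω 1)) ?_ ?_ ?_
  · intro ω hω
    simpa using hω
  · intro ω _ ω' _ h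
    rw [Prod.mk.injEq] at h
    funext k
    fin_cases k
    · exact h.1
    · exact h.2
  · intro x hx
    refine ⟨![x.1, x.2], ?_, ?_⟩
    · simpa using hx
    · simp

/-- the population: nine items of size `0`, eighty-one of size `9/10`, five of size `1` -/
noncomputable def pop : Fin 95 → ℝ := fun i =>
  if i.val < 9 then 0 else if i.val < 90 then 9 / 10 else 1

lemma pop_isPopulation : IsPopulation (41 / 50) pop where
  pos := by norm_num
  mem i := by unfold pop; split_ifs <;> norm_num
  mean := by
    have h1 : ∑ i, pop i = ((∑ i : Fin 95, (if i.val < 9 then (0 : ℚ) else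
        if i.val < 90 then 9 / 10 else 1) : ℚ) : ℝ) := by
      rw [Rat.cast_sum]
      refine Finset.sum_congr rfl fun i _ => ?_
      unfold pop
      split_ifs <;> norm_num
    have h2 : (∑ i : Fin 95, (if i.val < 9 then (0 : ℚ) else
        if i.val < 90 then 9 / 10 else 1) : ℚ) = 779 / 10 := by decide +kernel
    rw [h1, h2]
    norm_num

open scoped Classical in
lemma pop_F : 1539 / 9025 ≤ F 2 (9 / 10) pop := by
  unfold F
  rw [card_eq]
  have h : 1539 ≤ ((univ : Finset (Fin 95 × Fin 95)).filter
      (fun x => pop x.1 + pop x.2 ≤ 9 / 10)).card := by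
    have h2 : (univ : Finset (Fin 95 × Fin 95)).filter (fun x =>
        (x.1.val < 9 ∧ x.2.val < 90) ∨ (x.1.val < 90 ∧ x.2.val < 9)) ⊆
        (univ : Finset (Fin 95 × Fin 95)).filter (fun x => pop x.1 + pop x.2 ≤ 9 / 10) := by
      refine Finset.monotone_filter_right _ ?_
      intro x _ hx
      have e0 : ∀ i : Fin 95, i.val < 9 → pop i = 0 := fun i hi => if_pos hi
      have e1 : ∀ i : Fin 95, i.val < 90 → pop i ≤ 9 / 10 := by
        intro i hi
        unfold pop
        rw [if_pos hi]
        split_ifs <;> norm_num
      rcases hx with ⟨ha, hb⟩ | ⟨ha, hb⟩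
      · rw [e0 _ ha, zero_add]; exact e1 _ hb
      · rw [e0 _ hb, add_zero]; exact e1 _ ha
    have h3 : ((univ : Finset (Fin 95 × Fin 95)).filter (fun x =>
        (x.1.val < 9 ∧ x.2.val < 90) ∨ (x.1.val < 90 ∧ x.2.val < 9))).card = 1539 := by
      have h4 : (univ : Finset (Fin 95 × Fin 95)).filter (fun x =>
        (x.1.val < 9 ∧ x.2.val < 90) ∨ (x.1.val < 90 ∧ x.2.val < 9)) =
          (((univ : Finset (Fin 95)).filter (fun i => i.val < 9)) ×ˢ
            ((univ : Finset (Fin 95)).filter (fun i => i.val < 90))) ∪
          (((univ : Finset (Fin 95)).filter (fun i => i.val < 90)) ×ˢ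
            ((univ : Finset (Fin 95)).filter (fun i => i.val < 9))) := by
        ext x
        simp only [mem_union, mem_product, mem_filter, mem_univ, true_and]
      have h5 : ((univ : Finset (Fin 95)).filter (fun i => i.val < 9)).card = 9 := by decide +kernel
      have h6 : ((univ : Finset (Fin 95)).filter (fun i => i.val < 90)).card = 90 := by
        decide +kernel
      have h7 : (((univ : Finset (Fin 95)).filter (fun i => i.val < 9)) ×ˢ
            ((univ : Finset (Fin 95)).filter (fun i => i.val < 90))) ∩
          (((univ : Finset (Fin 95)).filter (fun i => i.val < 90)) ×ˢ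
            ((univ : Finset (Fin 95)).filter (fun i => i.val < 9))) =
          ((univ : Finset (Fin 95)).filter (fun i => i.val < 9)) ×ˢ
            ((univ : Finset (Fin 95)).filter (fun i => i.val < 9)) := by
        ext x
        simp only [mem_inter, mem_product, mem_filter, mem_univ, true_and]
        omega
      have h8 := Finset.card_union_add_card_inter
        (((univ : Finset (Fin 95)).filter (fun i => i.val < 9)) ×ˢ
            ((univ : Finset (Fin 95)).filter (fun i => i.val < 90)))
          (((univ : Finset (Fin 95)).filter (fun i => i.val < 90)) ×ˢ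
            ((univ : Finset (Fin 95)).filter (fun i => i.val < 9)))
      rw [h7, card_product, card_product, card_product, h5, h6] at h8
      rw [h4]
      omega
    rw [← h3]
    exact card_le_card h2
  have h' : (1539 : ℝ) ≤ (((univ : Finset (Fin 95 × Fin 95)).filter
      (fun x => pop x.1 + pop x.2 ≤ 9 / 10)).card : ℝ) := by exact_mod_cast h
  have h9 : ((95 : ℕ) : ℝ) ^ 2 = 9025 := by norm_num
  rw [h9]
  exact div_le_div_of_nonneg_right h' (by norm_num)

open scoped Classical in
/-- populations with at most two sizes -/
lemma two_sizes {N : ℕ} (e : Fin N → ℝ) (he : IsPopulation (41 / 50) e)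
    (h2 : (Set.range e).ncard ≤ 2) : F 2 (9 / 10) e ≤ 344 / 2025 := by
  have hN : (0 : ℝ) < N := by exact_mod_cast he.pos
  have hmean : ∑ i, e i = 41 / 50 * N := by
    have := he.mean
    rw [div_eq_iff hN.ne'] at this
    exact this
  -- the two sizes
  obtain ⟨x, y, hxy, hr⟩ : ∃ x y : ℝ, x ≤ y ∧ ∀ i, e i = x ∨ e i = y := by
    have hfin : (Set.range e).Finite := Set.finite_range e
    have : ∃ x y : ℝ, ∀ i, e i = x ∨ e i = y := by
      rcases Nat.lt_or_ge (Set.range e).ncard 1 with h | h
      · have h0 : (Set.range e).ncard = 0 := by omega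
        rw [Set.ncard_eq_zero hfin, Set.range_eq_empty_iff] at h0
        exact ⟨0, 0, fun i => (h0.false i).elim⟩
      · rcases Nat.lt_or_ge (Set.range e).ncard 2 with h' | h'
        · have h1 : (Set.range e).ncard = 1 := by omega
          obtain ⟨a, ha⟩ := Set.ncard_eq_one.1 h1
          refine ⟨a, a, fun i => Or.inl ?_⟩
          have : e i ∈ Set.range e := ⟨i, rfl⟩
          rw [ha] at this
          exact this
        · have h1 : (Set.range e).ncard = 2 := by omega
          obtain ⟨a, b, _, hab⟩ := Set.ncard_eq_two.1 h1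
          refine ⟨a, b, fun i => ?_⟩
          have : e i ∈ Set.range e := ⟨i, rfl⟩
          rw [hab] at this
          simpa using this
    obtain ⟨x, y, h⟩ := this
    rcases le_total x y with h' | h'
    · exact ⟨x, y, h', h⟩
    · exact ⟨y, x, h', fun i => (h i).symm⟩
  set A := (univ : Finset (Fin N)).filter (fun i => e i = x) with hA
  set B := (univ : Finset (Fin N)).filter (fun i => ¬ e i = x) with hB
  have hcard : (A.card : ℝ) + B.card = N := by
    have := Finset.card_filter_add_card_filter_not (s := (univ : Finset (Fin N)))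
      (fun i => e i = x)
    rw [card_univ, Fintype.card_fin] at this
    exact_mod_cast this
  have hsum : (A.card : ℝ) * x + B.card * y = 41 / 50 * N := by
    rw [← hmean, ← Finset.sum_filter_add_sum_filter_not univ (fun i => e i = x) e]
    congr 1
    · rw [Finset.sum_congr rfl (g := fun _ => x) (fun i hi => (mem_filter.1 hi).2)]
      rw [sum_const, nsmul_eq_mul]
    · rw [Finset.sum_congr rfl (g := fun _ => y) (fun i hi =>
        (hr i).resolve_left (mem_filter.1 hi).2)]
      rw [sum_const, nsmul_eq_mul]
  have hBy : ∀ i ∈ B, e i = y := fun i hi => (hr i).resolve_left (mem_filter.1 hi).2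
  have hAx : ∀ i ∈ A, e i = x := fun i hi => (mem_filter.1 hi).2
  have hAB : ∀ i, i ∈ A ∨ i ∈ B := by
    intro i
    by_cases h : e i = x
    · exact Or.inl (mem_filter.2 ⟨mem_univ _, h⟩)
    · exact Or.inr (mem_filter.2 ⟨mem_univ _, h⟩)
  have hA0 : (0 : ℝ) ≤ A.card := Nat.cast_nonneg _
  have hB0 : (0 : ℝ) ≤ B.card := Nat.cast_nonneg _
  -- y is at least the mean
  have hy : 41 / 50 ≤ y := by
    by_contra hcon
    push Not at hcon
    have h1 : (A.card : ℝ) * x ≤ A.card * y := mul_le_mul_of_nonneg_left hxy hA0
    have h3 : (A.card : ℝ) * y + B.card * y = N * y := by rw [← add_mul, hcard]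
    have h4 : (N : ℝ) * y < N * (41 / 50) := mul_lt_mul_of_pos_left hcon hN
    linarith
  set T := (univ : Finset (Fin N × Fin N)).filter (fun z => e z.1 + e z.2 ≤ 9 / 10) with hT
  have hFT : F 2 (9 / 10) e = (T.card : ℝ) / (N : ℝ) ^ 2 := by
    unfold F; rw [card_eq]
  rw [hFT, div_le_iff₀ (by positivity)]
  by_cases hcase : x + y ≤ 9 / 10
  · -- only pairs `(y, y)` are excluded
    have hx0 : 0 ≤ x ∨ A.card = 0 := by
      rcases Nat.eq_zero_or_pos A.card with h | h
      · exact Or.inr h
      · obtain ⟨i, hi⟩ := Finset.card_pos.1 h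
        left
        rw [← hAx i hi]
        exact (he.mem i).1
    have hb : 41 / 45 * (N : ℝ) ≤ B.card := by
      rcases hx0 with hx0 | hA00
      · have h1 : (B.card : ℝ) * y ≤ B.card * (9 / 10 - x) :=
          mul_le_mul_of_nonneg_left (by linarith) hB0
        have h3 : (A.card : ℝ) = N - B.card := by linarith
        rw [h3] at hsum
        -- 41/50 N ≤ N x + B (9/10 - 2x)
        have h4 : 41 / 50 * (N : ℝ) ≤ N * x + B.card * (9 / 10 - 2 * x) := by nlinarith
        have h5 : (B.card : ℝ) ≤ N := by linarith
        by_contra hcon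
        push Not at hcon
        have h6 : (9 / 10 - 2 * x) > 0 := by linarith
        have h7 : (B.card : ℝ) * (9 / 10 - 2 * x) < 41 / 45 * N * (9 / 10 - 2 * x) :=
          mul_lt_mul_of_pos_right hcon h6
        nlinarith [mul_nonneg hN.le hx0]
      · have h1 : (A.card : ℝ) = 0 := by exact_mod_cast hA00
        linarith
    have hT2 : T.card + (B ×ˢ B).card ≤ N ^ 2 := by
      have hdisj : Disjoint T (B ×ˢ B) := by
        rw [Finset.disjoint_left]
        intro z hz hz2
        rw [mem_product] at hz2
        have h1 := (mem_filter.1 hz).2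
        rw [hBy _ hz2.1, hBy _ hz2.2] at h1
        linarith
      rw [← Finset.card_union_of_disjoint hdisj]
      calc (T ∪ B ×ˢ B).card ≤ (univ : Finset (Fin N × Fin N)).card := card_le_card (subset_univ _)
        _ = N ^ 2 := by rw [card_univ, Fintype.card_prod, Fintype.card_fin, sq]
    rw [card_product] at hT2
    have hT3 : (T.card : ℝ) + B.card * B.card ≤ (N : ℝ) ^ 2 := by exact_mod_cast hT2
    nlinarith
  · push Not at hcase
    have hTA : T ⊆ A ×ˢ A := by
      intro z hz
      have h1 := (mem_filter.1 hz).2
      rw [mem_product]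
      constructor
      · rcases hAB z.1 with h | h
        · exact h
        · exfalso
          rw [hBy _ h] at h1
          rcases hr z.2 with h3 | h3 <;> rw [h3] at h1 <;> linarith
      · rcases hAB z.2 with h | h
        · exact h
        · exfalso
          rw [hBy _ h] at h1
          rcases hr z.1 with h3 | h3 <;> rw [h3] at h1 <;> linarith
    by_cases h2x : 2 * x ≤ 9 / 10
    · have h1 : (A.card : ℝ) * (1 - x) ≤ 9 / 50 * N := by
        have h3 : ∑ i ∈ A, (1 - e i) ≤ ∑ i, (1 - e i) :=
          Finset.sum_le_sum_of_subset_of_nonneg (subset_univ _)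
            (fun i _ _ => by linarith [(he.mem i).2])
        rw [Finset.sum_congr rfl (g := fun _ => 1 - x) (fun i hi => by rw [hAx i hi]),
          sum_const, nsmul_eq_mul, Finset.sum_sub_distrib, hmean] at h3
        simp at h3
        linarith
      have h4 : (A.card : ℝ) * (11 / 20) ≤ 9 / 50 * N := by
        refine le_trans ?_ h1
        exact mul_le_mul_of_nonneg_left (by linarith) hA0
      have h5 : (T.card : ℝ) ≤ A.card * A.card := by
        have := card_le_card hTA
        rw [card_product] at this
        exact_mod_cast this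
      have h6 : (A.card : ℝ) ≤ 18 / 55 * N := by linarith
      nlinarith
    · push Not at h2x
      have hT0 : T = ∅ := by
        rw [Finset.eq_empty_iff_forall_notMem]
        intro z hz
        have h3 := hTA hz
        rw [mem_product] at h3
        have h1 := (mem_filter.1 hz).2
        rw [hAx _ h3.1, hAx _ h3.2] at h1
        linarith
      rw [hT0, card_empty]
      push_cast
      positivity

end Q296.TwoPt
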